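import Mathlib

namespace Pool.Agent.H.MP_768068_al

abbrev E : Type := Module.End ℚ (ℕ → ℚ)

def x (b : Bool) : E where
  toFun f n := if n % 2 = b.toNat then f (n / 2) else 0
  map_add' f g := by funext n; by_cases h : n % 2 = b.toNat <;> simp [h]
  map_smul' c f := by funext n; by_cases h : n % 2 = b.toNat <;> simp [h]

def y (b : Bool) : E where
  toFun f n := f (2 * n + b.toNat)
  map_add' f g := rfl
  map_smul' c f := rfl

lemma yx (b c : Bool) : y b * x c = if b = c then 1 else 0 := by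
  apply LinearMap.ext; intro f; funext n
  have h1 : (2 * n + 1) / 2 = n := by omega
  have h2 : (2 * n + 1) % 2 = 1 := by omega
  cases b <;> cases c <;> simp [x, y, h1, h2]

lemma xy : x false * y false + x true * y true = 1 := by
  apply LinearMap.ext; intro f; funext n
  rcases Nat.mod_two_eq_zero_or_one n with h | h
  · have : 2 * (n / 2) = n := by omega
    simp [x, y, h, this]
  · have : 2 * (n / 2) + 1 = n := by omega
    simp [x, y, h, this]

lemma yx' (b c : Bool) (z : E) : y b * (x c * z) = if b = c then z else 0 := by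
  rw [← mul_assoc, yx]; split_ifs <;> simp

abbrev W : Type := Bool × List Bool

def X' (i : Bool) : List Bool → E
  | [] => x i
  | b :: u => X' i u * x b

def Y' (i : Bool) : List Bool → E
  | [] => y i
  | b :: u => y b * Y' i u

def len (w : W) : ℕ := w.2.length
def c (w : W) : ℕ := w.2.count true
def ex (b : Bool) (w : W) : W := (w.1, b :: w.2)
def e (p : W × W) : E := X' p.1.1 p.1.2 * Y' p.2.1 p.2.2

lemma YX (i j : Bool) : ∀ u v : List Bool, u.length = v.length →
    Y' j v * X' i u = if (j, v) = (i, u) then 1 else 0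
  | [], [], _ => by simp [X', Y', yx]
  | [], _ :: _, h => by simp at h
  | _ :: _, [], h => by simp at h
  | a :: u, b :: v, h => by
    have ih := YX i j u v (by simpa using h)
    have : Y' j (b :: v) * X' i (a :: u) = y b * (Y' j v * X' i u) * x a := by
      simp [X', Y', mul_assoc]
    rw [this, ih]
    by_cases h1 : (j, v) = (i, u)
    · rw [if_pos h1, mul_one, yx]
      obtain ⟨rfl, rfl⟩ := Prod.mk.inj h1
      simp
    · rw [if_neg h1, if_neg]
      · simp
      · intro h2
        apply h1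
        simp only [Prod.mk.injEq, List.cons.injEq] at h2 ⊢
        exact ⟨h2.1, h2.2.2⟩

lemma e_mul (u v u' v' : W) (h : len v = len u') :
    e (u, v) * e (u', v') = if v = u' then e (u, v') else 0 := by
  have : e (u, v) * e (u', v') = X' u.1 u.2 * (Y' v.1 v.2 * X' u'.1 u'.2) * Y' v'.1 v'.2 := by
    simp [e, mul_assoc]
  rw [this, YX _ _ _ _ h.symm]
  by_cases h1 : v = u'
  · simp [h1, e]
  · simp [h1]

lemma e_ne (u v : W) : e (u, v) ≠ 0 := by
  intro h
  have h1 : Y' u.1 u.2 * e (u, v) * X' v.1 v.2 =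
      (Y' u.1 u.2 * X' u.1 u.2) * (Y' v.1 v.2 * X' v.1 v.2) := by simp [e, mul_assoc]
  rw [h, YX _ _ _ _ rfl, YX _ _ _ _ rfl] at h1
  simp at h1

lemma e_split (u v : W) : e (u, v) = e (ex false u, ex false v) + e (ex true u, ex true v) := by
  have : e (u, v) = X' u.1 u.2 * (x false * y false + x true * y true) * Y' v.1 v.2 := by
    rw [xy]; simp [e]
  rw [this]
  simp [e, ex, X', Y', mul_add, add_mul, mul_assoc]

@[simp] lemma len_ex (b : Bool) (w : W) : len (ex b w) = len w + 1 := by simp [len, ex]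
@[simp] lemma c_ex_f (w : W) : c (ex false w) = c w := by simp [c, ex]
@[simp] lemma c_ex_t (w : W) : c (ex true w) = c w + 1 := by simp [c, ex]
lemma c_le (w : W) : c w ≤ len w := List.count_le_length

def S (n d : ℕ) : Set (W × W) := {p | len p.1 = n ∧ len p.2 = n ∧ c p.2 + d ≤ c p.1}

def B (n d : ℕ) : Submodule ℚ E := Submodule.span ℚ (e '' S n d)

lemma e_mem {n d : ℕ} {p : W × W} (h : p ∈ S n d) : e p ∈ B n d :=
  Submodule.subset_span ⟨p, h, rfl⟩

lemma B_succ (n d : ℕ) : B n d ≤ B (n + 1) d := by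
  apply Submodule.span_le.2
  rintro _ ⟨⟨u, v⟩, ⟨h1, h2, h3⟩, rfl⟩
  rw [e_split]
  simp only at h1 h2 h3
  refine (B (n + 1) d).add_mem (e_mem ⟨?_, ?_, ?_⟩) (e_mem ⟨?_, ?_, ?_⟩) <;> simp [h1, h2] <;> omega

lemma B_mono (d : ℕ) : Monotone (fun n => B n d) := monotone_nat_of_le_succ (fun n => B_succ n d)

lemma B_anti (n : ℕ) {d d' : ℕ} (h : d ≤ d') : B n d' ≤ B n d := by
  apply Submodule.span_mono
  apply Set.image_mono
  rintro p ⟨h1, h2, h3⟩
  exact ⟨h1, h2, by omega⟩

lemma B_mul {n d d' : ℕ} {a b : E} (ha : a ∈ B n d) (hb : b ∈ B n d') : a * b ∈ B n (d + d') := by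
  induction ha using Submodule.span_induction with
  | zero => simp
  | add a a' _ _ h h' => rw [add_mul]; exact Submodule.add_mem _ h h'
  | smul r a _ h => rw [smul_mul_assoc]; exact Submodule.smul_mem _ _ h
  | mem a ha =>
    induction hb using Submodule.span_induction with
    | zero => simp
    | add a a' _ _ h h' => rw [mul_add]; exact Submodule.add_mem _ h h'
    | smul r a _ h => rw [mul_smul_comm]; exact Submodule.smul_mem _ _ h
    | mem b hb =>
      obtain ⟨⟨u, v⟩, ⟨h1, h2, h3⟩, rfl⟩ := ha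
      obtain ⟨⟨u', v'⟩, ⟨h1', h2', h3'⟩, rfl⟩ := hb
      simp only at h1 h2 h3 h1' h2' h3'
      rw [e_mul _ _ _ _ (h2.trans h1'.symm)]
      split_ifs with h
      · subst h
        exact e_mem ⟨h1, h2', by simp only; omega⟩
      · simp

lemma B_bot {n : ℕ} {a : E} (ha : a ∈ B n (n + 1)) : a = 0 := by
  have : S n (n + 1) = ∅ := by
    ext p
    simp only [Set.mem_empty_iff_false, iff_false]
    rintro ⟨h1, _, h3⟩
    have := c_le p.1
    omega
  simpa [B, this] using ha

/-- the filtration of the limit algebra -/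
def F (d : ℕ) : Submodule ℚ E := ⨆ n, B n d

lemma mem_F {d : ℕ} {a : E} : a ∈ F d ↔ ∃ n, a ∈ B n d :=
  Submodule.mem_iSup_of_directed _ (B_mono d).directed_le

lemma F_mul {d d' : ℕ} {a b : E} (ha : a ∈ F d) (hb : b ∈ F d') : a * b ∈ F (d + d') := by
  obtain ⟨n, hn⟩ := mem_F.1 ha
  obtain ⟨m, hm⟩ := mem_F.1 hb
  exact mem_F.2 ⟨max n m, B_mul (B_mono d (le_max_left n m) hn) (B_mono d' (le_max_right n m) hm)⟩

lemma F0_mul {a b : E} (ha : a ∈ F 0) (hb : b ∈ F 0) : a * b ∈ F 0 := by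
  have := F_mul ha hb
  rwa [add_zero] at this

lemma e_memF {n d : ℕ} {p : W × W} (h : p ∈ S n d) : e p ∈ F d := mem_F.2 ⟨n, e_mem h⟩

lemma xy_mem (i j : Bool) : x i * y j ∈ F 0 :=
  e_memF (n := 0) (p := ((i, []), (j, []))) ⟨rfl, rfl, by simp [c]⟩

lemma one_mem : (1 : E) ∈ F 0 := by
  rw [← xy]; exact Submodule.add_mem _ (xy_mem _ _) (xy_mem _ _)

/-- associative ideal of `F 0` -/
def AI (I : Submodule ℚ E) : Prop := I ≤ F 0 ∧ ∀ a ∈ F 0, ∀ z ∈ I, a * z ∈ I ∧ z * a ∈ I

lemma exists_unit {I J : Submodule ℚ E} (hI : AI I) (h : ¬ I ≤ J) :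
    ∃ n, ∃ p ∈ S n 0, e p ∈ I ∧ e p ∉ J := by
  by_contra hc
  push Not at hc
  apply h
  intro a ha
  obtain ⟨n, hn⟩ := mem_F.1 (hI.1 ha)
  obtain ⟨l, hl, hla⟩ := (Finsupp.mem_span_image_iff_linearCombination ℚ).1 hn
  have key : ∀ p ∈ l.support, l p • e p ∈ J := by
    intro p hp
    have hS : p ∈ S n 0 := hl hp
    have hp0 : l p ≠ 0 := by simpa using hp
    apply J.smul_mem
    apply hc n p hS
    have h1 : e (p.1, p.1) * a * e (p.2, p.2) = l p • e p := by
      rw [← hla, Finsupp.linearCombination_apply, Finsupp.sum, Finset.mul_sum, Finset.sum_mul,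
        Finset.sum_eq_single p]
      · rw [mul_smul_comm, smul_mul_assoc, e_mul p.1 p.1 p.1 p.2 rfl, if_pos rfl,
          e_mul p.1 p.2 p.2 p.2 rfl, if_pos rfl]
      · intro q hq hne
        have hq' : q ∈ S n 0 := hl hq
        rw [mul_smul_comm, smul_mul_assoc, e_mul p.1 p.1 q.1 q.2 (hS.1.trans hq'.1.symm)]
        split_ifs with h1
        · rw [e_mul p.1 q.2 p.2 p.2 (hq'.2.1.trans hS.2.1.symm), if_neg]
          · simp
          · intro h2
            exact hne (Prod.ext h1.symm h2)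
        · simp
      · intro h; exact absurd hp h
    have h2 : l p • e p ∈ I := by
      rw [← h1]
      exact (hI.2 _ (e_memF (n := n) (p := (p.2, p.2)) ⟨hS.2.1, hS.2.1, le_rfl⟩) _
        (hI.2 _ (e_memF (n := n) (p := (p.1, p.1)) ⟨hS.1, hS.1, le_rfl⟩) _ ha).1).2
    have := I.smul_mem (l p)⁻¹ h2
    rwa [smul_smul, inv_mul_cancel₀ hp0, one_smul] at this
  rw [← hla, Finsupp.linearCombination_apply, Finsupp.sum]
  exact J.sum_mem key

lemma ex_mem {I : Submodule ℚ E} (hI : AI I) {u v : W} (h : e (u, v) ∈ I) (b : Bool) :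
    e (ex b u, ex b v) ∈ I := by
  have h1 := (hI.2 _ (e_memF (n := len u + 1) (p := (ex b u, ex b u)) ⟨by simp, by simp, le_rfl⟩)
    _ h).1
  rw [e_split u v, mul_add, e_mul _ _ _ _ (by simp), e_mul _ _ _ _ (by simp)] at h1
  cases b <;> simpa [ex] using h1

lemma app_mem {I : Submodule ℚ E} (hI : AI I) {u v : W} (h : e (u, v) ∈ I) (w : List Bool) :
    e ((u.1, w ++ u.2), (v.1, w ++ v.2)) ∈ I := by
  induction w with
  | nil => exact h
  | cons b w ih => exact ex_mem hI ih b

def co (n : ℕ) (p : W × W) : ℕ × ℕ × ℕ := (c p.2, c p.1 - c p.2, n - c p.1)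

lemma move {I : Submodule ℚ E} (hI : AI I) {n n' : ℕ} {p p' : W × W} (hp : p ∈ S n 0)
    (hp' : p' ∈ S n' 0) (h : e p ∈ I) (hle : co n p ≤ co n' p') : e p' ∈ I := by
  obtain ⟨u, v⟩ := p
  obtain ⟨u', v'⟩ := p'
  obtain ⟨h1, h2, h3⟩ := hp
  obtain ⟨h1', h2', h3'⟩ := hp'
  obtain ⟨g1, g2, g3⟩ := hle
  simp only [co] at *
  have := c_le u
  have := c_le u'
  set w : List Bool := List.replicate (c v' - c v) true ++
    List.replicate (n' - n - (c v' - c v)) false with hw
  have lw : w.length = n' - n := by simp [hw]; omega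
  have cw : w.count true = c v' - c v := by simp [hw, List.count_replicate]
  have h4 := app_mem hI h w
  set u'' : W := (u.1, w ++ u.2)
  set v'' : W := (v.1, w ++ v.2)
  have lu : len u'' = n' := by
    have : len u'' = w.length + len u := by simp [len, u'']
    omega
  have lv : len v'' = n' := by
    have : len v'' = w.length + len v := by simp [len, v'']
    omega
  have cu : c u'' = w.count true + c u := by simp [c, u'']
  have cv : c v'' = w.count true + c v := by simp [c, v'']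
  have h5 := (hI.2 _ (e_memF (n := n') (p := (v'', v')) ⟨lv, h2', by simp only; omega⟩) _
    (hI.2 _ (e_memF (n := n') (p := (u', u'')) ⟨h1', lu, by simp only; omega⟩) _ h4).1).2
  rwa [e_mul _ _ _ _ rfl, if_pos rfl, e_mul _ _ _ _ rfl, if_pos rfl] at h5

lemma no_chain (I : ℕ → Submodule ℚ E) (hI : ∀ k, AI (I k)) (hm : StrictMono I) : False := by
  have h1 : ∀ k, ∃ n, ∃ p ∈ S n 0, e p ∈ I (k + 1) ∧ e p ∉ I k := fun k =>
    exists_unit (hI _) (not_le_of_gt (hm (Nat.lt_succ_self k)))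
  choose n p hp h2 h3 using h1
  obtain ⟨k, l, hkl, hle⟩ := (wellQuasiOrdered_le (α := ℕ × ℕ × ℕ)) (fun k => co (n k) (p k))
  exact h3 l (hm.monotone (Nat.succ_le_of_lt hkl) (move (hI _) (hp k) (hp l) (h2 k) hle))

lemma jordan_AI {I : Submodule ℚ E} (h0 : I ≤ F 0)
    (hJ : ∀ a ∈ F 0, ∀ z ∈ I, a * z + z * a ∈ I) : AI I := by
  have hT : ∀ a ∈ F 0, ∀ d ∈ F 0, ∀ z ∈ I, a * z * d + d * z * a ∈ I := by
    intro a ha d hd z hz
    have h1 := I.sub_mem (I.add_mem (hJ d hd _ (hJ a ha z hz)) (hJ a ha _ (hJ d hd z hz)))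
      (hJ _ ((F 0).add_mem (F0_mul ha hd) (F0_mul hd ha)) z hz)
    have h2 := I.smul_mem (1 / 2 : ℚ) h1
    convert h2 using 1
    rw [eq_comm, one_div, inv_smul_eq_iff₀ two_ne_zero, two_smul]
    noncomm_ring
  have hoff : ∀ i : Bool, ∀ m ∈ F 0, ∀ z ∈ I, x i * y i * m * (x (!i) * y (!i)) * z ∈ I := by
    intro i m hm z hz
    have hk : ∀ k : Bool, x i * y i * m * (x (!i) * y (!i)) * z * (x k * y k) ∈ I := by
      intro k
      have h1 := hT _ (F0_mul (F0_mul (xy_mem i i) hm) (xy_mem (!i) (!k))) _ (xy_mem k k) _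
        (hT _ (xy_mem (!k) (!i)) _ (xy_mem k k) z hz)
      convert h1 using 1
      cases i <;> cases k <;> simp [mul_assoc, mul_add, add_mul, yx, yx']
    have := I.add_mem (hk false) (hk true)
    rwa [← mul_add, xy, mul_one] at this
  have hl : ∀ a ∈ F 0, ∀ z ∈ I, a * z ∈ I := by
    intro a ha z hz
    have hd : ∀ i : Bool, x i * y i * a * (x i * y i) * z ∈ I := by
      intro i
      have h1 := hoff i _ (F0_mul ha (xy_mem i (!i))) _ (hoff (!i) _ (xy_mem (!i) i) z hz)
      convert h1 using 1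
      cases i <;> simp [mul_assoc, yx, yx']
    have h1 := I.add_mem (I.add_mem (hd false) (hoff false a ha z hz))
      (I.add_mem (hoff true a ha z hz) (hd true))
    convert h1 using 1
    calc a * z = (x false * y false + x true * y true) * a *
          (x false * y false + x true * y true) * z := by rw [xy]; simp
      _ = _ := by simp only [Bool.not_false, Bool.not_true]; noncomm_ring
  refine ⟨h0, fun a ha z hz => ⟨hl a ha z hz, ?_⟩⟩
  simpa using I.sub_mem (hJ a ha z hz) (hl a ha z hz)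

end Pool.Agent.H.MP_768068_al
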