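import Pool.Agent.H.MP_768068_al.Defs
import Pool.Agent.H.MP_768068_al.A

namespace Pool.Agent.H.MP_768068_al

variable {T : Type} [NonUnitalNonAssocRing T] [Module ℚ T]
  [IsScalarTower ℚ T T] [SMulCommClass ℚ T T]

def wd (N i : ℕ) : W := (false, List.replicate i true ++ List.replicate (N - i) false)

lemma len_wd {N i : ℕ} (h : i ≤ N) : len (wd N i) = N := by simp [len, wd]; omega
lemma c_wd (N i : ℕ) : c (wd N i) = i := by simp [c, wd, List.count_replicate]
lemma wd_ne {N i j : ℕ} (h : i ≠ j) : wd N i ≠ wd N j := fun h' =>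
  h (by rw [← c_wd N i, h', c_wd])

lemma word_idem {S : Set T} (t : S) (ht : (t : T) * t = t) : ∀ n : ℕ,
    ∃ w : FreeMagma S, w.length = n + 1 ∧ FreeMagma.lift (fun s : S => (s : T)) w = t
  | 0 => ⟨FreeMagma.of t, rfl, rfl⟩
  | n + 1 => by
    obtain ⟨w, h1, h2⟩ := word_idem t ht n
    refine ⟨w * FreeMagma.of t, by simp [h1], ?_⟩
    rw [map_mul, h2]; simpa using ht

theorem general (φ : T →ₗ[ℚ] E) (hinj : Function.Injective φ) (hr : LinearMap.range φ = F 0)
    (α β : ℚ) (hα : α ≠ 0) (hαβ : α + β = 1)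
    (hm : ∀ a b, φ (a * b) = α • (φ a * φ b) + β • (φ b * φ a))
    (hI : ∀ I : Submodule ℚ T, IsIdl ℚ I → AI (I.map φ)) : Counter ℚ T := by
  have hF : ∀ a, φ a ∈ F 0 := fun a => hr ▸ LinearMap.mem_range_self φ a
  have hS : ∀ z ∈ F 0, ∃ a, φ a = z := fun z hz => by rwa [← hr] at hz
  have hmul : ∀ (P : Submodule ℚ E) a b, φ a * φ b ∈ P → φ b * φ a ∈ P → φ (a * b) ∈ P :=
    fun P a b h1 h2 => by rw [hm]; exact P.add_mem (P.smul_mem _ h1) (P.smul_mem _ h2)
  refine ⟨⟨?_⟩, (F 1).comap φ, ⟨⟨?_, ?_⟩, ?_⟩, ?_⟩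
  · rw [wellFounded_iff_isEmpty_descending_chain]
    refine ⟨fun ⟨I, hc⟩ => ?_⟩
    refine no_chain (fun k => (I k).1.map φ) (fun k => hI _ (I k).2) ?_
    apply strictMono_nat_of_lt_succ
    intro k
    exact Submodule.map_strictMono_of_injective hinj (hc k)
  · intro a z hz
    have h1 : φ a * φ z ∈ F 1 := by have := F_mul (hF a) hz; rwa [zero_add] at this
    have h2 : φ z * φ a ∈ F 1 := by have := F_mul hz (hF a); rwa [add_zero] at this
    exact ⟨hmul _ _ _ h1 h2, hmul _ _ _ h2 h1⟩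
  · intro s hs
    have hn : ∃ n, ∀ a ∈ s, φ a ∈ B n 1 := by
      have h1 : ∀ a : s, ∃ n, φ a ∈ B n 1 := fun a => mem_F.1 (hs a.2)
      choose n hn using h1
      refine ⟨Finset.univ.sup n, fun a ha => ?_⟩
      have h2 : n ⟨a, ha⟩ ≤ Finset.univ.sup n := Finset.le_sup (f := n) (Finset.mem_univ _)
      have h3 : B (n ⟨a, ha⟩) 1 ≤ B (Finset.univ.sup n) 1 := B_mono 1 h2
      exact h3 (hn ⟨a, ha⟩)
    obtain ⟨n, hn⟩ := hn
    have hadj : ∀ a ∈ NonUnitalAlgebra.adjoin ℚ (s : Set T), φ a ∈ B n 1 := by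
      intro a ha
      induction ha using NonUnitalAlgebra.adjoin_induction with
      | mem a ha => exact hn a ha
      | add a b _ _ h1 h2 => rw [map_add]; exact Submodule.add_mem _ h1 h2
      | zero => simp
      | mul a b _ _ h1 h2 =>
        exact hmul _ _ _ (B_anti n (by omega) (B_mul h1 h2)) (B_anti n (by omega) (B_mul h2 h1))
      | smul r a _ h => rw [map_smul]; exact Submodule.smul_mem _ _ h
    have hw : ∀ w : FreeMagma (NonUnitalAlgebra.adjoin ℚ (s : Set T) : Set T),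
        φ (FreeMagma.lift (fun a : (NonUnitalAlgebra.adjoin ℚ (s : Set T) : Set T) => (a : T)) w)
          ∈ B n w.length := by
      intro w
      induction w with
      | ih1 a => exact hadj a a.2
      | ih2 a b h1 h2 =>
        rw [map_mul]
        refine hmul _ _ _ (B_mul h1 h2) ?_
        have := B_mul h2 h1
        rwa [add_comm] at this
    refine ⟨n + 1, n.succ_pos, fun w h => ?_⟩
    apply hinj
    rw [map_zero]
    exact B_bot (h ▸ hw w)
  · rintro I ⟨h1, h2⟩
    rw [← Submodule.map_le_iff_le_comap]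
    by_contra hc
    have hA := hI I h1
    obtain ⟨n, ⟨u, v⟩, hp, h3, h4⟩ := exists_unit hA hc
    have h5 : c u ≤ c v := by
      by_contra h5
      exact h4 (e_memF (n := n) ⟨hp.1, hp.2.1, by simp only; omega⟩)
    have h6 := (hA.2 _ (e_memF (n := n) (p := (v, u)) ⟨hp.2.1, hp.1, h5⟩) _ h3).2
    rw [e_mul _ _ _ _ rfl, if_pos rfl] at h6
    obtain ⟨t, ht, hte⟩ := h6
    have htt : t * t = t := by
      apply hinj
      rw [hm, hte, e_mul _ _ _ _ rfl, if_pos rfl, ← add_smul, hαβ, one_smul]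
    obtain ⟨m, hm0, hm1⟩ := h2 {t} (by simpa using ht)
    obtain ⟨w, hw1, hw2⟩ := word_idem (S := (NonUnitalAlgebra.adjoin ℚ
      (({t} : Finset T) : Set T) : Set T))
      ⟨t, NonUnitalAlgebra.subset_adjoin ℚ (by simp)⟩ htt (m - 1)
    have := hm1 w (by omega)
    rw [hw2] at this
    simp only at this
    rw [this, map_zero] at hte
    exact e_ne _ _ hte.symm
  · rintro ⟨N, hN, h⟩
    have hf : ∀ i : ℕ, ∃ t : ((F 1).comap φ : Set T), i < N →
        φ t = e (wd N (i + 1), wd N i) := by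
      intro i
      by_cases hi : i < N
      · have h1 : (wd N (i + 1), wd N i) ∈ S N 1 :=
          ⟨len_wd hi, len_wd hi.le, by simp [c_wd]⟩
        obtain ⟨t, ht⟩ := hS _ (mem_F.2 ⟨N, B_anti N (Nat.zero_le 1) (e_mem h1)⟩)
        exact ⟨⟨t, by simpa [ht] using e_memF h1⟩, fun _ => ht⟩
      · exact ⟨⟨0, by simp⟩, fun h => absurd h hi⟩
    choose f hf using hf
    have hk : ∀ k : ℕ, k < N → ∃ w : FreeMagma ((F 1).comap φ : Set T), w.length = k + 1 ∧
        φ (FreeMagma.lift (fun a : ((F 1).comap φ : Set T) => (a : T)) w) = α ^ k • e (wd N (k + 1), wd N 0) := by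
      intro k
      induction k with
      | zero => intro h0; exact ⟨FreeMagma.of (f 0), rfl, by simpa using hf 0 h0⟩
      | succ k ih =>
        intro hk
        obtain ⟨w, h1, h2⟩ := ih (by omega)
        refine ⟨FreeMagma.of (f (k + 1)) * w, by simp [h1]; omega, ?_⟩
        rw [map_mul, hm, h2, FreeMagma.lift_of, hf _ hk, mul_smul_comm, smul_mul_assoc,
          e_mul _ _ _ _ rfl, if_pos rfl,
          e_mul _ _ _ _ ((len_wd (by omega)).trans (len_wd (by omega)).symm),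
          if_neg (wd_ne (by omega)), smul_zero, smul_zero, add_zero, smul_smul, pow_succ']
    obtain ⟨w, h1, h2⟩ := hk (N - 1) (by omega)
    rw [h w (by omega), map_zero] at h2
    exact smul_ne_zero (pow_ne_zero _ hα) (e_ne _ _) h2.symm

/-- the associative algebra -/
def Alg : Subalgebra ℚ E := (F 0).toSubalgebra one_mem (fun _ _ => F0_mul)

theorem counter_assoc : Counter ℚ Alg := by
  refine general Alg.val.toLinearMap Subtype.val_injective ?_ 1 0 one_ne_zero (by simp)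
    (by simp) ?_
  · ext z
    exact ⟨fun ⟨a, ha⟩ => ha ▸ a.2, fun h => ⟨⟨z, h⟩, rfl⟩⟩
  · intro I hI
    refine ⟨?_, ?_⟩
    · rintro _ ⟨a, _, rfl⟩; exact a.2
    · rintro a ha _ ⟨z, hz, rfl⟩
      exact ⟨⟨_, (hI ⟨a, ha⟩ z hz).1, rfl⟩, ⟨_, (hI ⟨a, ha⟩ z hz).2, rfl⟩⟩

/-- the Jordan algebra: same space, product `(ab + ba) / 2` -/
def Jor : Type := Alg

noncomputable instance : AddCommGroup Jor := inferInstanceAs (AddCommGroup Alg)
noncomputable instance : Module ℚ Jor := inferInstanceAs (Module ℚ Alg)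

def Jor.val (a : Jor) : Alg := a

noncomputable instance : Mul Jor :=
  ⟨fun a b => show Alg from (1 / 2 : ℚ) • (a.val * b.val) + (1 / 2 : ℚ) • (b.val * a.val)⟩

def ψ : Jor →ₗ[ℚ] E := Alg.val.toLinearMap

lemma ψ_inj : Function.Injective ψ := Subtype.val_injective

lemma ψ_mul (a b : Jor) : ψ (a * b) = (1 / 2 : ℚ) • (ψ a * ψ b) + (1 / 2 : ℚ) • (ψ b * ψ a) := rfl

noncomputable instance : NonUnitalNonAssocRing Jor where
  left_distrib a b d := ψ_inj (by
    simp only [ψ_mul, map_add, mul_add, add_mul, smul_add]; abel)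
  right_distrib a b d := ψ_inj (by
    simp only [ψ_mul, map_add, mul_add, add_mul, smul_add]; abel)
  zero_mul a := ψ_inj (by simp [ψ_mul])
  mul_zero a := ψ_inj (by simp [ψ_mul])

instance : IsScalarTower ℚ Jor Jor := ⟨fun r a b => ψ_inj (by
  simp only [smul_eq_mul, ψ_mul, map_smul, mul_smul_comm, smul_mul_assoc, smul_add]
  rw [smul_comm r, smul_comm r])⟩

instance : SMulCommClass ℚ Jor Jor := ⟨fun r a b => ψ_inj (by
  simp only [smul_eq_mul, ψ_mul, map_smul, smul_add]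
  rw [mul_smul_comm r (ψ a), smul_mul_assoc r (ψ b), smul_comm r, smul_comm r])⟩

lemma jor_comm (a b : Jor) : a * b = b * a := ψ_inj (by rw [ψ_mul, ψ_mul, add_comm])

lemma jor_id (a b : Jor) : (a * a * b) * a = (a * a) * (b * a) := ψ_inj (by
  simp only [ψ_mul, mul_add, add_mul, smul_add, mul_smul_comm, smul_mul_assoc, mul_assoc]
  abel)

theorem counter_jor : Counter ℚ Jor := by
  refine general ψ ψ_inj ?_ (1 / 2) (1 / 2) (by norm_num) (by norm_num) ψ_mul ?_
  · ext z
    exact ⟨fun ⟨a, ha⟩ => ha ▸ a.val.2, fun h => ⟨(⟨z, h⟩ : Alg), rfl⟩⟩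
  · intro I hI
    apply jordan_AI
    · rintro _ ⟨a, _, rfl⟩; exact a.val.2
    · rintro a ha _ ⟨z, hz, rfl⟩
      refine ⟨_, I.smul_mem 2 (hI (show Jor from (⟨a, ha⟩ : Alg)) z hz).1, ?_⟩
      rw [map_smul, ψ_mul, smul_add, smul_smul, smul_smul]
      norm_num
      rfl

end Pool.Agent.H.MP_768068_al
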