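import Mathlib

namespace Pool.Agent.H.MP_768068_al

variable (K : Type) {A : Type} [Field K] [NonUnitalNonAssocRing A] [Module K A]
  [IsScalarTower K A A] [SMulCommClass K A A]

/-- A two-sided ideal of the algebra `A`: a subspace closed under left and right
multiplication by elements of `A`. -/
def IsIdl (I : Submodule K A) : Prop := ∀ a : A, ∀ x ∈ I, a * x ∈ I ∧ x * a ∈ I

/-- `S` is nilpotent: for some `n ≥ 1` every product of `n` elements of `S`, with every
arrangement of parentheses, vanishes. -/
def Nilp (S : Set A) : Prop :=
  ∃ n : ℕ, 0 < n ∧ ∀ w : FreeMagma S, w.length = n → FreeMagma.lift (fun s : S => (s : A)) w = 0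

/-- `S` is locally nilpotent: the subalgebra generated by any finite subset of `S`
is nilpotent. -/
def LocNilp (S : Set A) : Prop :=
  ∀ s : Finset A, (s : Set A) ⊆ S → Nilp (NonUnitalAlgebra.adjoin K (s : Set A) : Set A)

variable (A) in
/-- `A` has the ascending chain condition on two-sided ideals, and its largest locally
nilpotent ideal exists and is not nilpotent. -/
def Counter : Prop :=
  WellFoundedGT {I : Submodule K A // IsIdl K I} ∧
    ∃ L : Submodule K A, IsGreatest {I : Submodule K A | IsIdl K I ∧ LocNilp K (I : Set A)} L ∧
      ¬ Nilp (L : Set A)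

end Pool.Agent.H.MP_768068_al
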